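import Pool.Agent.H59.PG.Stmts

/-!
# Row SOL: the winner `win g` is the winner of a positional solution
-/

set_option autoImplicit false

namespace Pool.PG

open Filter TMLib

/-- The fields of a solution depend only on the winners of the vertices of the game. -/
theorem sol_congr {g : Game} (hg : Valid g) {W W' : ℕ → Bool} {σ : ℕ → ℕ} (h : Sol g W σ)
    (hW : ∀ v < g.length, W' v = W v) : Sol g W' σ := by
  refine ⟨h.mem, ?_, ?_, ?_⟩
  · intro v hv ho
    rw [hW v hv] at ho
    have h1 : σ v < g.length := (hg v hv).2 _ (h.mem v hv)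
    rw [hW v hv, hW _ h1]
    exact h.stay v hv ho
  · intro v hv ho w hw
    rw [hW v hv] at ho
    have h1 : w < g.length := (hg v hv).2 _ hw
    rw [hW v hv, hW _ h1]
    exact h.trap v hv ho w hw
  · intro v hv x hx hf
    rw [hW v hv] at hf ⊢
    exact h.won v hv x hx hf

theorem win_iff {g : Game} {v : ℕ} : win g v = true ↔ Win g true v := by
  classical
  unfold win
  exact decide_eq_true_iff

/-- **SOL**. -/
theorem sol_row (h1 : DETStmt) (h2 : WINStmt) : SOLStmt := by
  intro g hg
  obtain ⟨W, σ, hs⟩ := h1 g hg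
  have hw := h2 g W σ hg hs
  have hW : ∀ v < g.length, win g v = W v := by
    intro v hv
    exact Bool.eq_iff_iff.2 (win_iff.trans (hw v hv true))
  refine ⟨⟨σ, sol_congr hg hs hW⟩, ?_⟩
  intro v hv i
  rw [hW v hv]
  exact hw v hv i

end Pool.PG
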